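import Pool.Agent.W769.Ent.Sphere

set_option autoImplicit false
set_option maxHeartbeats 1000000

/-! Tubes whose positions are a one-sided Lipschitz function of the direction: a cap of directions.

At a large height `τ` the lines are spread out: their intersection points with that hyperplane
determine the directions in a Lipschitz way; the projective map that moves this hyperplane to
infinity exchanges positions and directions. -/

open MeasureTheory Set Finset Topology Filter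
open scoped ENNReal InnerProductSpace

namespace Pool.Agent.R251.Osl

open Pool.Agent.W769.Iso Pool.Agent.W769.Kak Pool.Agent.W769.Ent

variable {d : ℕ}

/-- one-sided Lipschitz condition -/
def Osl {ι : Type} (L : ℝ) (e a : ι → Eu d) : Prop :=
  ∀ i j, -(L * ‖e i - e j‖ ^ 2) ≤ ⟪a i - a j, e i - e j⟫_ℝ

theorem expand {L : ℝ} {x y a b : Eu d} {s t M : ℝ} (hx : ‖x‖ = 1) (hy : ‖y‖ = 1)
    (h : -(L * ‖x - y‖ ^ 2) ≤ ⟪a - b, x - y⟫_ℝ) (hst : M + L ≤ (s + t) / 2) :
    M * ‖x - y‖ ≤ ‖(a + s • x) - (b + t • y)‖ := by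
  rcases eq_or_lt_of_le (norm_nonneg (x - y)) with h0 | h0
  · rw [← h0, mul_zero]; exact norm_nonneg _
  have h1 : ‖x - y‖ ^ 2 = 2 - 2 * ⟪x, y⟫_ℝ := by
    rw [norm_sub_sq_real, hx, hy]; ring
  have h2 : ⟪(a + s • x) - (b + t • y), x - y⟫_ℝ = ⟪a - b, x - y⟫_ℝ +
      (s + t) / 2 * ‖x - y‖ ^ 2 := by
    have e1 : (a + s • x) - (b + t • y) = (a - b) + (s • x - t • y) := by abel
    rw [e1, inner_add_left, h1, inner_sub_left (s • x), inner_smul_left, inner_smul_left,
      inner_sub_right x x y, inner_sub_right y x y, real_inner_self_eq_norm_sq,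
      real_inner_self_eq_norm_sq, hx, hy, real_inner_comm x y]
    simp only [conj_trivial]
    ring
  have h3 := real_inner_le_norm ((a + s • x) - (b + t • y)) (x - y)
  rw [h2] at h3
  have h4 : M * ‖x - y‖ * ‖x - y‖ ≤ ‖(a + s • x) - (b + t • y)‖ * ‖x - y‖ := by
    have h5 : (M + L) * ‖x - y‖ ^ 2 ≤ (s + t) / 2 * ‖x - y‖ ^ 2 := by gcongr
    nlinarith
  exact le_of_mul_le_mul_right h4 h0

theorem lint_scale {σ : ℝ} (hσ : 0 < σ) {f : (Fin d → ℝ) → ℝ≥0∞} (hf : Measurable f) :
    ∫⁻ y, f y = ENNReal.ofReal (σ ^ d) * ∫⁻ y, f (σ • y) := by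
  have h1 : ∫⁻ z, f (σ • z) = ∫⁻ z, f z ∂(Measure.map (fun z : Fin d → ℝ => σ • z) volume) := by
    rw [lintegral_map hf (measurable_const_smul σ)]
  rw [h1, Measure.map_addHaar_smul volume hσ.ne', lintegral_smul_measure, smul_eq_mul,
    ← mul_assoc, ← ENNReal.ofReal_mul (by positivity), Module.finrank_fin_fun,
    abs_of_pos (by positivity), mul_inv_cancel₀ (by positivity), ENNReal.ofReal_one, one_mul]

/-- the change of variables in the heights -/
theorem heights_inv {Λ : ℝ} (hΛ : 0 < Λ) {G : ℝ → ℝ≥0∞} (hGm : Measurable G)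
    (hG : ∀ t, 2 * Λ < |t| → G t = 0) :
    ∫⁻ t, G t ≤ ENNReal.ofReal (8 * Λ) *
      ∑ m ∈ Finset.Icc (1:ℕ) 3, ∫⁻ s in Icc (0 : ℝ) 1, G (4 * Λ - 8 * Λ / (m + s)) := by
  set f : ℝ → ℝ := fun s => 4 * Λ - 8 * Λ / s with hf
  set S : Set ℝ := Icc (1:ℝ) 4 with hS
  have hder : ∀ s ∈ S, HasDerivWithinAt f (8 * Λ / s ^ 2) S s := by
    intro s hs
    have hs0 : s ≠ 0 := by have := hs.1; intro h; linarith
    have h1 : HasDerivAt f (8 * Λ / s ^ 2) s := by
      have h2 := ((hasDerivAt_inv hs0).const_mul (8 * Λ)).const_sub (4 * Λ)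
      have h3 : -(8 * Λ * -(s ^ 2)⁻¹) = 8 * Λ / s ^ 2 := by field_simp
      rw [h3] at h2
      exact h2
    exact h1.hasDerivWithinAt
  have hinj : InjOn f S := by
    intro s hs t ht hst
    have hs0 : 0 < s := by linarith [hs.1]
    have ht0 : 0 < t := by linarith [ht.1]
    simp only [hf] at hst
    have h1 : 8 * Λ / s = 8 * Λ / t := by linarith
    rw [div_eq_div_iff hs0.ne' ht0.ne'] at h1
    have h2 : 8 * Λ ≠ 0 := by positivity
    exact (mul_left_cancel₀ h2 h1).symm
  have hcov := lintegral_image_eq_lintegral_abs_deriv_mul measurableSet_Icc hder hinj G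
  have hsub : ∀ t, G t = (f '' S).indicator G t := by
    intro t
    by_cases ht : t ∈ f '' S
    · rw [Set.indicator_of_mem ht]
    · rw [Set.indicator_of_notMem ht]
      apply hG
      by_contra hcon
      push Not at hcon
      rw [abs_le] at hcon
      apply ht
      have h3 : 0 < 4 * Λ - t := by linarith
      refine ⟨8 * Λ / (4 * Λ - t), ⟨?_, ?_⟩, ?_⟩
      · rw [le_div_iff₀ h3]; linarith
      · rw [div_le_iff₀ h3]; linarith
      · simp only [hf]
        field_simp
        ring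
  have hmeasim : MeasurableSet (f '' S) := by
    have h1 : IsCompact (f '' S) := by
      apply isCompact_Icc.image_of_continuousOn
      intro s hs
      exact (hder s hs).continuousWithinAt
    exact h1.measurableSet
  have e1 : ∫⁻ t, G t = ∫⁻ t in f '' S, G t := by
    rw [← lintegral_indicator hmeasim]
    exact lintegral_congr hsub
  rw [e1, hcov]
  have h2 : ∫⁻ x in S, ENNReal.ofReal |8 * Λ / x ^ 2| * G (f x) ≤
      ∫⁻ x in S, ENNReal.ofReal (8 * Λ) * G (f x) := by
    apply setLIntegral_mono' measurableSet_Icc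
    intro x hx
    gcongr
    rw [abs_of_nonneg (by positivity)]
    apply div_le_self (by positivity)
    have := hx.1
    nlinarith
  refine h2.trans ?_
  rw [lintegral_const_mul' _ _ ENNReal.ofReal_ne_top]
  gcongr
  have hfm : Measurable f := measurable_const.sub (measurable_const.div measurable_id)
  have hS3 : ∀ x, S.indicator (fun x => G (f x)) x ≤
      ∑ m ∈ Finset.Icc (1:ℕ) 3, (Icc (m:ℝ) (m + 1)).indicator (fun x => G (f x)) x := by
    intro x
    by_cases hx : x ∈ S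
    · obtain ⟨m, hm, hxm⟩ : ∃ m ∈ Finset.Icc (1:ℕ) 3, x ∈ Icc (m:ℝ) (m + 1) := by
        rcases le_or_gt x 2 with h | h
        · exact ⟨1, by simp, by constructor <;> push_cast <;> linarith [hx.1]⟩
        rcases le_or_gt x 3 with h' | h'
        · exact ⟨2, by simp, by constructor <;> push_cast <;> linarith⟩
        · exact ⟨3, by simp, by constructor <;> push_cast <;> linarith [hx.2]⟩
      rw [Set.indicator_of_mem hx]
      calc G (f x) = (Icc (m:ℝ) (m + 1)).indicator (fun x => G (f x)) x := by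
            rw [Set.indicator_of_mem hxm]
        _ ≤ _ := Finset.single_le_sum
            (f := fun m : ℕ => (Icc (m:ℝ) (m + 1)).indicator (fun x => G (f x)) x)
            (fun _ _ => zero_le) hm
    · rw [Set.indicator_of_notMem hx]; exact zero_le
  calc ∫⁻ x in S, G (f x) = ∫⁻ x, S.indicator (fun x => G (f x)) x :=
        (lintegral_indicator measurableSet_Icc _).symm
    _ ≤ ∫⁻ x, ∑ m ∈ Finset.Icc (1:ℕ) 3, (Icc (m:ℝ) (m + 1)).indicator (fun x => G (f x)) x :=
        lintegral_mono hS3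
    _ = ∑ m ∈ Finset.Icc (1:ℕ) 3, ∫⁻ x, (Icc (m:ℝ) (m + 1)).indicator (fun x => G (f x)) x :=
        lintegral_finsetSum _ fun m _ => (hGm.comp hfm).indicator measurableSet_Icc
    _ ≤ _ := by
        apply Finset.sum_le_sum
        intro m _
        rw [← lintegral_indicator measurableSet_Icc,
          ← lintegral_add_left_eq_self ((Icc (m : ℝ) (m + 1)).indicator fun x => G (f x)) (m : ℝ)]
        refine lintegral_mono fun s => ?_
        by_cases hs : s ∈ Icc (0 : ℝ) 1
        · rw [Set.indicator_of_mem hs, Set.indicator_of_mem]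
          exact ⟨by linarith [hs.1], by linarith [hs.2]⟩
        · rw [Set.indicator_of_notMem hs, Set.indicator_of_notMem]
          intro hm
          exact hs ⟨by linarith [hm.1], by linarith [hm.2]⟩

/-- The projective exchange of positions and directions. -/
theorem proj_piece (hd : 1 ≤ d) : ∃ C : ℝ, 0 < C ∧ ∀ (ι : Type) [Fintype ι]
    (v z : ι → Fin d → ℝ) (Λ δ : ℝ), 1 ≤ Λ → 0 < δ → δ ≤ 1 → (∀ i, ‖z i‖ ≤ 4 * Λ) →
    (∀ i j, i ≠ j → 2 * Λ * δ ≤ d * ‖z i - z j‖) →
    (∀ i j, Λ * ‖v i - v j‖ ≤ d * ‖z i - z j‖) →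
    ∀ (N : ℝ → (Fin d → ℝ) → ℝ), (Measurable fun p : ℝ × (Fin d → ℝ) => N p.1 p.2) →
    (∀ t y, 0 ≤ N t y) → (∀ t, 2 * Λ < |t| → ∀ y, N t y = 0) →
    (∀ t y, N t y ≤ ∑ i, {y : Fin d → ℝ | ‖z i - (4 * Λ - t) • v i - y‖ ≤ 2 * δ}.indicator
      (fun _ => (1 : ℝ)) y) →
    ∫⁻ t, ∫⁻ y, ENNReal.ofReal (Ph (N t y)) ≤
      ENNReal.ofReal (C * Λ ^ (d + 1) *
        (1 + Real.log (1 / δ)) ^ (1 - 1 / (2 * (d : ℝ) ^ 2 + 2 * d + 1))) := by
  obtain ⟨C1, hC1, hgraph⟩ := graph_disc hd
  have hd0 : (0 : ℝ) < d := by exact_mod_cast (show 0 < d by omega)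
  have hd1 : (1 : ℝ) ≤ d := by exact_mod_cast hd
  refine ⟨3 * 8 ^ (d + 1) * (C1 * (1 + (3 + 8 * d)) ^ (2 * d * (d + 2)) * 2), by positivity, ?_⟩
  intro ι _ v z Λ δ hΛ1 hδ hδ1 hzn hzsep hvz N hNm hN0 hNs hNb
  have hΛ0 : 0 < Λ := by linarith
  set G : ℝ → ℝ≥0∞ := fun t => ∫⁻ y : Fin d → ℝ, ENNReal.ofReal (Ph (N t y)) with hG
  have hjm : Measurable fun p : ℝ × (Fin d → ℝ) => ENNReal.ofReal (Ph (N p.1 p.2)) :=
    ENNReal.measurable_ofReal.comp (Ph_meas.comp hNm)
  have hGm : Measurable G := hjm.lintegral_prod_right'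
  have hG0 : ∀ t, 2 * Λ < |t| → G t = 0 := by
    intro t ht
    rw [hG]
    simp only
    have : ∀ y : Fin d → ℝ, ENNReal.ofReal (Ph (N t y)) = 0 := by
      intro y
      rw [hNs t ht y, Ph]; simp
    simp_rw [this]
    simp
  refine (heights_inv hΛ0 hGm hG0).trans ?_
  have hlogδ : 0 ≤ Real.log (1 / δ) := Real.log_nonneg (by rw [le_div_iff₀ hδ]; linarith)
  set ex : ℝ := 1 - 1 / (2 * (d : ℝ) ^ 2 + 2 * d + 1) with hex
  have hex0 : 0 ≤ ex := by
    rw [hex, sub_nonneg, div_le_one (by positivity)]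
    nlinarith
  have hex1 : ex ≤ 1 := by
    rw [hex]
    have : 0 ≤ 1 / (2 * (d : ℝ) ^ 2 + 2 * d + 1) := by positivity
    linarith
  set X : ℝ := C1 * (1 + (3 + 8 * d)) ^ (2 * d * (d + 2)) *
    (1 + Real.log (1 / (δ / 2))) ^ ex with hX
  have hlog2 : 1 + Real.log (1 / (δ / 2)) ≤ 2 * (1 + Real.log (1 / δ)) := by
    have e1 : 1 / (δ / 2) = 2 * (1 / δ) := by field_simp
    rw [e1, Real.log_mul (by norm_num) (by positivity)]
    have : Real.log 2 ≤ 1 := by
      have := Real.log_le_sub_one_of_pos (show (0:ℝ) < 2 by norm_num)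
      linarith
    linarith
  have hlog2' : 0 ≤ 1 + Real.log (1 / (δ / 2)) := by
    have e1 : 1 / (δ / 2) = 2 * (1 / δ) := by field_simp
    rw [e1, Real.log_mul (by norm_num) (by positivity)]
    have : 0 ≤ Real.log 2 := Real.log_nonneg (by norm_num)
    linarith
  have hX0 : 0 ≤ X := by positivity
  obtain ⟨w, hw⟩ : ∃ w : ι → Fin d → ℝ, ∀ i, w i = (8 * Λ)⁻¹ • z i := ⟨_, fun i => rfl⟩
  have hwn : ∀ i, ‖w i‖ ≤ 1 / 2 := by
    intro i
    rw [hw, norm_smul, norm_inv, Real.norm_of_nonneg (by positivity),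
      inv_mul_le_iff₀ (by positivity)]
    have := hzn i
    linarith
  have hww : ∀ i j, ‖w i - w j‖ = (8 * Λ)⁻¹ * ‖z i - z j‖ := by
    intro i j
    rw [hw, hw, ← smul_sub, norm_smul, norm_inv, Real.norm_of_nonneg (by positivity)]
  have hwz : ∀ i j, d * ‖z i - z j‖ = 8 * d * Λ * ‖w i - w j‖ := by
    intro i j
    rw [hww]
    field_simp
  have hpiece : ∀ m ∈ Finset.Icc (1:ℕ) 3,
      ∫⁻ s in Icc (0 : ℝ) 1, G (4 * Λ - 8 * Λ / ((m:ℝ) + s)) ≤
      ENNReal.ofReal ((8 * Λ) ^ d * X) := by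
    intro m hm
    rw [Finset.mem_Icc] at hm
    have hm1 : (1:ℝ) ≤ m := by exact_mod_cast hm.1
    have hm3 : (m:ℝ) ≤ 3 := by exact_mod_cast hm.2
    obtain ⟨b, hb⟩ : ∃ b : ι → Fin d → ℝ, ∀ i, b i = (m : ℝ) • w i - v i := ⟨_, fun i => rfl⟩
    have hg := hgraph ι w b (3 + 8 * d) (δ / 2)
      (by positivity) (by positivity) (by linarith) hwn (fun i j hij => by
        have h1 := hzsep i j hij
        rw [hwz] at h1
        have h2 : 2 * Λ * δ ≤ 2 * Λ * (4 * d * ‖w i - w j‖) := by linarith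
        have h3 := le_of_mul_le_mul_left h2 (by positivity)
        linarith) (by
        intro i j
        have h1 : b i - b j = (m : ℝ) • (w i - w j) - (v i - v j) := by
          rw [hb, hb, smul_sub]; abel
        rw [h1]
        have h2 := norm_sub_le ((m : ℝ) • (w i - w j)) (v i - v j)
        have h3 : ‖(m : ℝ) • (w i - w j)‖ ≤ 3 * ‖w i - w j‖ := by
          rw [norm_smul, Real.norm_of_nonneg (by linarith)]
          gcongr
        have h4 := hvz i j
        rw [hwz] at h4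
        have h5 : Λ * ‖v i - v j‖ ≤ Λ * (8 * d * ‖w i - w j‖) := by linarith
        have h6 := le_of_mul_le_mul_left h5 hΛ0
        linarith)
    have hpt : ∀ s ∈ Icc (0:ℝ) 1, G (4 * Λ - 8 * Λ / ((m:ℝ) + s)) ≤
        ENNReal.ofReal ((8 * Λ) ^ d) * ∫⁻ y, ENNReal.ofReal (Ph (Ng w b (δ / 2) s y)) := by
      intro s hs
      have hms : 0 < (m:ℝ) + s := by linarith [hs.1]
      obtain ⟨σ, hσ⟩ : ∃ σ : ℝ, σ = 8 * Λ / ((m:ℝ) + s) := ⟨_, rfl⟩
      rw [← hσ]
      have hσ0 : 0 < σ := by rw [hσ]; positivity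
      have hσu : σ ≤ 8 * Λ := by
        rw [hσ, div_le_iff₀ hms]
        nlinarith [hs.1]
      have hσl : 2 * Λ ≤ σ := by
        rw [hσ, le_div_iff₀ hms]
        nlinarith [hs.2]
      have hm2 : Measurable fun y : Fin d → ℝ => ENNReal.ofReal (Ph (N (4 * Λ - σ) y)) :=
        hjm.comp (measurable_const.prodMk measurable_id)
      have e1 : G (4 * Λ - σ) = ENNReal.ofReal (σ ^ d) * ∫⁻ y : Fin d → ℝ,
          ENNReal.ofReal (Ph (N (4 * Λ - σ) (σ • y))) := lint_scale hσ0 hm2
      rw [e1]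
      have h1 : ENNReal.ofReal (σ ^ d) ≤ ENNReal.ofReal ((8 * Λ) ^ d) :=
        ENNReal.ofReal_le_ofReal (pow_le_pow_left₀ hσ0.le hσu d)
      refine mul_le_mul' h1 (lintegral_mono fun y => ENNReal.ofReal_le_ofReal
        (Ph_mono (hN0 _ _) ((hNb _ _).trans ?_)))
      unfold Ng
      refine Finset.sum_le_sum fun i _ => ?_
      by_cases hmem : ‖z i - (4 * Λ - (4 * Λ - σ)) • v i - σ • y‖ ≤ 2 * δ
      · rw [Set.indicator_of_mem (show σ • y ∈ {y : Fin d → ℝ |
          ‖z i - (4 * Λ - (4 * Λ - σ)) • v i - y‖ ≤ 2 * δ} from hmem), Set.indicator_of_mem]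
        rw [Set.mem_ofPred_eq]
        have h3 : b i + s • w i - y = σ⁻¹ • (z i - (4 * Λ - (4 * Λ - σ)) • v i - σ • y) := by
          have e2 : b i + s • w i = ((m : ℝ) + s) • w i - v i := by
            rw [hb, add_smul]; abel
          have e3 : ((m : ℝ) + s) • w i = σ⁻¹ • z i := by
            rw [hw, smul_smul]
            congr 1
            rw [hσ]
            field_simp
          have e4 : 4 * Λ - (4 * Λ - σ) = σ := by ring
          rw [e2, e3, e4, smul_sub, smul_sub, smul_smul, smul_smul, inv_mul_cancel₀ hσ0.ne',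
            one_smul, one_smul]
        rw [h3, norm_smul, norm_inv, Real.norm_of_nonneg hσ0.le, inv_mul_le_iff₀ hσ0]
        nlinarith
      · rw [Set.indicator_of_notMem (show σ • y ∉ {y : Fin d → ℝ |
          ‖z i - (4 * Λ - (4 * Λ - σ)) • v i - y‖ ≤ 2 * δ} from hmem)]
        exact Set.indicator_nonneg (fun _ _ => zero_le_one) _
    calc ∫⁻ s in Icc (0 : ℝ) 1, G (4 * Λ - 8 * Λ / ((m:ℝ) + s))
        ≤ ∫⁻ s in Icc (0 : ℝ) 1, ENNReal.ofReal ((8 * Λ) ^ d) *
          ∫⁻ y, ENNReal.ofReal (Ph (Ng w b (δ / 2) s y)) :=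
          setLIntegral_mono' measurableSet_Icc hpt
      _ = ENNReal.ofReal ((8 * Λ) ^ d) * ∫⁻ s in Icc (0 : ℝ) 1,
          ∫⁻ y, ENNReal.ofReal (Ph (Ng w b (δ / 2) s y)) :=
          lintegral_const_mul' _ _ ENNReal.ofReal_ne_top
      _ ≤ ENNReal.ofReal ((8 * Λ) ^ d) * ENNReal.ofReal X := mul_le_mul' le_rfl hg
      _ = _ := (ENNReal.ofReal_mul (by positivity)).symm
  calc ENNReal.ofReal (8 * Λ) *
      ∑ m ∈ Finset.Icc (1:ℕ) 3, ∫⁻ s in Icc (0 : ℝ) 1, G (4 * Λ - 8 * Λ / (m + s))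
      ≤ ENNReal.ofReal (8 * Λ) * ∑ _m ∈ Finset.Icc (1:ℕ) 3, ENNReal.ofReal ((8 * Λ) ^ d * X) :=
        mul_le_mul' le_rfl (Finset.sum_le_sum hpiece)
    _ = ENNReal.ofReal (8 * Λ * (3 * ((8 * Λ) ^ d * X))) := by
        rw [Finset.sum_const, Nat.card_Icc, nsmul_eq_mul, ENNReal.ofReal_mul (p := 8 * Λ)
          (by positivity), ENNReal.ofReal_mul (p := 3) (by norm_num)]
        norm_num
    _ ≤ _ := by
        apply ENNReal.ofReal_le_ofReal
        have h1 : X ≤ C1 * (1 + (3 + 8 * d)) ^ (2 * d * (d + 2)) *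
            (2 * (1 + Real.log (1 / δ)) ^ ex) := by
          rw [hX]
          gcongr
          calc (1 + Real.log (1 / (δ / 2))) ^ ex ≤ (2 * (1 + Real.log (1 / δ))) ^ ex :=
                Real.rpow_le_rpow hlog2' hlog2 hex0
            _ = 2 ^ ex * (1 + Real.log (1 / δ)) ^ ex :=
                Real.mul_rpow (by norm_num) (by positivity)
            _ ≤ 2 ^ (1:ℝ) * (1 + Real.log (1 / δ)) ^ ex := by
                gcongr
                norm_num
            _ = _ := by rw [Real.rpow_one]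
        calc 8 * Λ * (3 * ((8 * Λ) ^ d * X))
            ≤ 8 * Λ * (3 * ((8 * Λ) ^ d * (C1 * (1 + (3 + 8 * d)) ^ (2 * d * (d + 2)) *
            (2 * (1 + Real.log (1 / δ)) ^ ex)))) := by gcongr
          _ = _ := by
              rw [mul_pow, pow_succ (8:ℝ) d, pow_succ Λ d]
              ring

/-- **Tubes with directions in a cap.** -/
theorem cap (hd : 1 ≤ d) : ∃ C : ℝ, 0 < C ∧ ∀ (ι : Type) [Fintype ι]
    (e a : ι → Eu d) (e₀ : Eu d) (L R δ : ℝ), 0 ≤ L → 0 ≤ R → 0 < δ → δ ≤ 1 → ‖e₀‖ = 1 →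
    (∀ i, ‖e i‖ = 1) → (∀ i, ‖e i - e₀‖ ≤ 1 / 8) →
    (∀ i j, i ≠ j → δ ≤ ‖e i - e j‖) → (∀ i, ‖a i‖ ≤ R) → Osl L e a →
    ∫⁻ y, ENNReal.ofReal (Ph (Nt e a δ y)) ≤
      ENNReal.ofReal (C * (1 + L + R) ^ (d + 1) *
        (1 + Real.log (1 / δ)) ^ (1 - 1 / (2 * (d : ℝ) ^ 2 + 2 * d + 1))) := by
  obtain ⟨C1, hC1, hproj⟩ := proj_piece hd
  have hd0 : (0 : ℝ) < d := by exact_mod_cast (show 0 < d by omega)
  have hd1 : (1 : ℝ) ≤ d := by exact_mod_cast hd
  refine ⟨C1, hC1, ?_⟩
  intro ι _ e a e₀ L R δ hL hR hδ hδ1 he₀ he hcap hsep haR hosl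
  obtain ⟨A, hA⟩ := exists_rot e₀ he₀
  set Λ : ℝ := 1 + L + R with hΛ
  have hΛ1 : 1 ≤ Λ := by rw [hΛ]; linarith
  have hΛ0 : 0 < Λ := by linarith
  set x0 : ι → ℝ := fun i => A (e i) 0 with hx0
  have hdiff : ∀ i k, |A (e i) k - (mk 1 0 : Eu d) k| ≤ 1 / 8 := by
    intro i k
    have h1 : ‖A (e i) - mk 1 0‖ ≤ 1 / 8 := by
      rw [← hA, ← map_sub, A.norm_map]
      exact hcap i
    exact (coord_le (A (e i) - mk 1 0) k).trans h1
  have hx0l : ∀ i, 7 / 8 ≤ x0 i := by
    intro i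
    have := hdiff i 0
    rw [Pool.Agent.W769.Iso.mk_zero, abs_le] at this
    rw [hx0]
    linarith [this.1]
  have hx0u : ∀ i, x0 i ≤ 1 := by
    intro i
    have h1 := coord_le (A (e i)) 0
    rw [A.norm_map, he i] at h1
    exact (le_abs_self _).trans h1
  set v : ι → Fin d → ℝ := fun i j => A (e i) j.succ / x0 i with hv
  have hAe : ∀ i, A (e i) = x0 i • mk 1 (v i) := by
    intro i
    have h1 : x0 i ≠ 0 := by have := hx0l i; linarith
    ext k
    refine Fin.cases ?_ (fun j => ?_) k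
    · simp [hx0]
    · simp only [PiLp.smul_apply, mk_succ, smul_eq_mul, hv]
      field_simp
  have hvs : ∀ i (j : Fin d), |A (e i) j.succ| ≤ 1 / 8 := by
    intro i j
    have h1 := hdiff i j.succ
    rwa [mk_succ, Pi.zero_apply, sub_zero] at h1
  have hvn : ∀ i, ‖v i‖ ≤ 1 / 4 := by
    intro i
    rw [pi_norm_le_iff_of_nonneg (by norm_num)]
    intro j
    have h1 := hvs i j
    have h2 := hx0l i
    rw [Real.norm_eq_abs, hv]
    simp only
    rw [abs_div, abs_of_pos (by linarith : 0 < x0 i), div_le_iff₀ (by linarith)]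
    linarith
  -- `v` is a Lipschitz function of `e`
  have hvlip : ∀ i j, ‖v i - v j‖ ≤ 2 * ‖e i - e j‖ := by
    intro i j
    rw [pi_norm_le_iff_of_nonneg (by positivity)]
    intro k
    have hxi := hx0l i
    have hxj := hx0l j
    have hD : ∀ l, |A (e i) l - A (e j) l| ≤ ‖e i - e j‖ := by
      intro l
      have h1 := coord_le (A (e i - e j)) l
      rw [A.norm_map, map_sub] at h1
      exact h1
    have h1 : (v i - v j) k = (A (e i) k.succ * (x0 j - x0 i) +
        x0 i * (A (e i) k.succ - A (e j) k.succ)) / (x0 i * x0 j) := by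
      rw [Pi.sub_apply, hv]
      simp only
      have : x0 i ≠ 0 := by linarith
      have : x0 j ≠ 0 := by linarith
      field_simp
      ring
    have hpos : 0 < x0 i * x0 j := by
      apply mul_pos <;> linarith
    rw [h1, Real.norm_eq_abs, abs_div, abs_of_pos hpos, div_le_iff₀ hpos]
    have h2 : |A (e i) k.succ * (x0 j - x0 i)| ≤ 1 / 8 * ‖e i - e j‖ := by
      rw [abs_mul]
      have h3 := hD 0
      rw [abs_sub_comm] at h3
      have h4 := hvs i k
      exact mul_le_mul h4 h3 (abs_nonneg _) (by norm_num)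
    have h3 : |x0 i * (A (e i) k.succ - A (e j) k.succ)| ≤ 1 * ‖e i - e j‖ := by
      rw [abs_mul, abs_of_pos (by linarith : 0 < x0 i)]
      have h4 := hD k.succ
      have h5 := hx0u i
      gcongr
    have h4 := abs_add_le (A (e i) k.succ * (x0 j - x0 i))
      (x0 i * (A (e i) k.succ - A (e j) k.succ))
    have h5 : (49 / 64 : ℝ) ≤ x0 i * x0 j := by nlinarith
    have h6 := norm_nonneg (e i - e j)
    nlinarith
  set h : ι → ℝ := fun i => A (a i) 0 with hh
  set p : ι → Fin d → ℝ := fun i j => A (a i) j.succ with hp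
  have hAa : ∀ i, A (a i) = mk (h i) (p i) := by
    intro i
    ext k
    refine Fin.cases ?_ (fun j => ?_) k
    · simp [hh]
    · simp [hp]
  have hhR : ∀ i, |h i| ≤ R := by
    intro i
    have h1 := coord_le (A (a i)) 0
    rw [A.norm_map] at h1
    exact h1.trans (haR i)
  have hpR : ∀ i, ‖p i‖ ≤ R := by
    intro i
    rw [pi_norm_le_iff_of_nonneg hR]
    intro k
    have h1 := coord_le (A (a i)) k.succ
    rw [A.norm_map] at h1
    exact h1.trans (haR i)
  set q : ι → Fin d → ℝ := fun i => p i - h i • v i with hq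
  set z : ι → Fin d → ℝ := fun i => q i + (4 * Λ) • v i with hz
  have hzn : ∀ i, ‖z i‖ ≤ 4 * Λ := by
    intro i
    have h1 : ‖h i • v i‖ ≤ R * (1 / 4) := by
      rw [norm_smul, Real.norm_eq_abs]
      have := hhR i
      have := hvn i
      gcongr
    have h2 : ‖(4 * Λ) • v i‖ ≤ 4 * Λ * (1 / 4) := by
      rw [norm_smul, Real.norm_of_nonneg (by positivity)]
      have := hvn i
      gcongr
    have h3 := norm_add_le (q i) ((4 * Λ) • v i)
    have h4 := norm_sub_le (p i) (h i • v i)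
    have h5 := hpR i
    have h6 : ‖z i‖ ≤ ‖q i‖ + ‖(4 * Λ) • v i‖ := h3
    have h7 : ‖q i‖ ≤ ‖p i‖ + ‖h i • v i‖ := h4
    have h8 : R ≤ Λ := by rw [hΛ]; linarith
    linarith
  -- expansion at the height `4 Λ`
  have hzexp : ∀ i j, 2 * Λ * ‖e i - e j‖ ≤ d * ‖z i - z j‖ := by
    intro i j
    set s : ι → ℝ := fun i => (4 * Λ - h i) / x0 i with hs
    have hsl : ∀ i, 3 * Λ ≤ s i := by
      intro i
      have h1 := abs_le.1 (hhR i)
      have h2 : R ≤ Λ := by rw [hΛ]; linarith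
      have h3 : 3 * Λ ≤ 4 * Λ - h i := by linarith [h1.2]
      have h4 := hx0l i
      rw [hs]
      simp only
      rw [le_div_iff₀ (by linarith)]
      have h5 := hx0u i
      nlinarith
    have hpt : ∀ i, A (a i + s i • e i) = mk (4 * Λ) (z i) := by
      intro i
      have h1 : s i * x0 i = 4 * Λ - h i := by
        rw [hs]
        simp only
        have := hx0l i
        field_simp
      rw [map_add, map_smul, hAa, hAe, smul_smul, h1]
      ext k
      refine Fin.cases ?_ (fun j => ?_) k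
      · simp
      · simp only [PiLp.add_apply, PiLp.smul_apply, mk_succ, smul_eq_mul, hz, hq, Pi.add_apply,
          Pi.sub_apply, Pi.smul_apply]
        ring
    have h1 := expand (M := 2 * Λ) (he i) (he j) (hosl i j) (s := s i) (t := s j) (by
      have := hsl i
      have := hsl j
      have : L ≤ Λ := by rw [hΛ]; linarith
      linarith)
    have h2 : ‖(a i + s i • e i) - (a j + s j • e j)‖ = ‖(mk 0 (z i - z j) : Eu d)‖ := by
      rw [← A.norm_map, map_sub, hpt, hpt, mk_sub, sub_self]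
    rw [h2] at h1
    exact h1.trans (norm_mk_zero_le _)
  -- the inclusion
  have hincl : ∀ (t : ℝ) (y : Fin d → ℝ) (i : ι), Th A 0 (Fin.cons t y) ∈ tube δ (e i) (a i) →
      |t| ≤ 2 * Λ ∧ ‖q i + t • v i - y‖ ≤ 2 * δ := by
    rintro t y i ⟨h1, h2⟩
    set Y := Th A 0 (Fin.cons t y) with hY
    set s : ℝ := ⟪Y - a i, e i⟫_ℝ with hs
    set W : Eu d := (Y - a i) - s • e i with hW
    have hAY : A Y = mk t y := by
      have := A_Th A 0 (Fin.cons t y)
      rwa [sub_zero] at this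
    have hdec : A W = mk t y - mk (h i) (p i) - (s * x0 i) • mk 1 (v i) := by
      rw [hW, map_sub, map_sub, map_smul, hAY, hAa, hAe, smul_smul]
    have hWc : ∀ k, |A W k| ≤ δ := fun k => by
      have := coord_le (A W) k
      rw [A.norm_map] at this
      exact this.trans h2
    have hw0 : A W 0 = t - h i - s * x0 i := by
      rw [hdec]
      simp
    have hwj : ∀ j : Fin d, A W j.succ = y j - p i j - s * x0 i * v i j := by
      intro j
      rw [hdec]
      simp
    constructor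
    · have h3 := hWc 0
      rw [hw0] at h3
      have h4 := hhR i
      have h5 : |s * x0 i| ≤ 1 / 2 := by
        rw [abs_mul, abs_of_pos (by linarith [hx0l i] : 0 < x0 i)]
        have := hx0u i
        have := hx0l i
        nlinarith [abs_nonneg s]
      rw [abs_le] at h3 h4 h5 ⊢
      have h6 : R + 1 ≤ Λ := by rw [hΛ]; linarith
      constructor <;> linarith [h3.1, h3.2, h4.1, h4.2, h5.1, h5.2]
    · rw [pi_norm_le_iff_of_nonneg (by positivity)]
      intro j
      have h3 : (q i + t • v i - y) j = A W 0 * v i j - A W j.succ := by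
        rw [hw0, hwj]
        simp only [hq, Pi.sub_apply, Pi.add_apply, Pi.smul_apply, smul_eq_mul]
        ring
      rw [h3, Real.norm_eq_abs]
      have h4 := abs_sub (A W 0 * v i j) (A W j.succ)
      have h5 : |A W 0 * v i j| ≤ δ * (1 / 4) := by
        rw [abs_mul]
        have h6 := hWc 0
        have h7 : |v i j| ≤ 1 / 4 := (norm_le_pi_norm (v i) j).trans (hvn i)
        gcongr
      have h6 := hWc j.succ
      linarith
  have hFm : Measurable (fun y => ENNReal.ofReal (Ph (Nt e a δ y))) :=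
    ENNReal.measurable_ofReal.comp (Ph_meas.comp (Nt_meas e a δ))
  have hNm : Measurable fun p : ℝ × (Fin d → ℝ) => Nt e a δ (Th A 0 (Fin.cons p.1 p.2)) :=
    (Nt_meas e a δ).comp ((Th_mp A 0).measurable.comp cons_cont.measurable)
  rw [lintegral_Th A 0 hFm]
  refine hproj ι v z Λ δ hΛ1 hδ hδ1 hzn ?_ ?_
    (fun t y => Nt e a δ (Th A 0 (Fin.cons t y))) hNm (fun t y => Nt_nonneg _ _ _ _) ?_ ?_
  · intro i j hij
    refine le_trans ?_ (hzexp i j)
    have := hsep i j hij
    gcongr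
  · intro i j
    refine le_trans ?_ (hzexp i j)
    have := hvlip i j
    calc Λ * ‖v i - v j‖ ≤ Λ * (2 * ‖e i - e j‖) := by gcongr
      _ = _ := by ring
  · intro t ht y
    unfold Nt
    apply Finset.sum_eq_zero
    intro i _
    apply Set.indicator_of_notMem
    intro hmem
    have := (hincl t y i hmem).1
    linarith
  · intro t y
    unfold Nt
    refine Finset.sum_le_sum fun i _ => ?_
    by_cases hmem : Th A 0 (Fin.cons t y) ∈ tube δ (e i) (a i)
    · rw [Set.indicator_of_mem hmem, Set.indicator_of_mem]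
      have h1 := (hincl _ y i hmem).2
      rw [Set.mem_ofPred_eq]
      have h2 : z i - (4 * Λ - t) • v i - y = q i + t • v i - y := by
        simp only [hz]
        rw [sub_smul]; abel
      rw [h2]
      exact h1
    · rw [Set.indicator_of_notMem hmem]
      exact Set.indicator_nonneg (fun _ _ => zero_le_one) _

end Pool.Agent.R251.Osl
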