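import Pool.Agent.R251.Osl.Cap

set_option autoImplicit false
set_option maxHeartbeats 1000000

/-! Tubes whose positions are a one-sided Lipschitz function of the direction. -/

open MeasureTheory Set Finset Topology Filter
open scoped ENNReal InnerProductSpace

namespace Pool.Agent.R251.Osl

open Pool.Agent.W769.Iso Pool.Agent.W769.Kak Pool.Agent.W769.Ent

variable {d : ℕ}

/-- **Tubes with arbitrary directions.** -/
theorem sphere_all (hd : 1 ≤ d) : ∃ C : ℝ, 0 < C ∧ ∀ (ι : Type) [Fintype ι]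
    (e a : ι → Eu d) (L R δ : ℝ), 0 ≤ L → 0 ≤ R → 0 < δ → δ ≤ 1 →
    (∀ i, ‖e i‖ = 1) →
    (∀ i j, i ≠ j → δ ≤ ‖e i - e j‖) → (∀ i, ‖a i‖ ≤ R) → Osl L e a →
    ∫⁻ y, ENNReal.ofReal (Ph (Nt e a δ y)) ≤
      ENNReal.ofReal (C * (1 + L + R) ^ (d + 1) *
        (1 + Real.log (1 / δ)) ^ (1 - 1 / (2 * (d : ℝ) ^ 2 + 2 * d + 1))) := by
  classical
  obtain ⟨C1, hC1, hcap⟩ := cap hd
  obtain ⟨t, hts, htf, htc⟩ := (isCompact_sphere (0 : Eu d) 1).finite_cover_balls
    (show (0 : ℝ) < 1 / 8 by norm_num)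
  set F : Finset (Eu d) := htf.toFinset with hF
  set M : ℝ := (F.card : ℝ) + 1 with hM
  have hM1 : 1 ≤ M := by
    rw [hM]
    have : (0 : ℝ) ≤ (F.card : ℝ) := by positivity
    linarith
  refine ⟨M ^ 2 * (M * C1), by positivity, ?_⟩
  intro ι _ e a L R δ hL hR hδ hδ1 he hsep haR hlip
  have hFe : ∀ f ∈ F, ‖f‖ = 1 := by
    intro f hf
    have := hts (htf.mem_toFinset.1 hf)
    rwa [mem_sphere_zero_iff_norm] at this
  -- pieces
  set N : Eu d → Eu d → ℝ := fun f y => Nt (fun i : {i // ‖e i - f‖ ≤ 1 / 8} => e i.1)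
    (fun i => a i.1) δ y with hN
  have hsum : ∀ y, Nt e a δ y ≤ ∑ f ∈ F, N f y := by
    intro y
    have h1 : ∀ f, N f y = ∑ i, if ‖e i - f‖ ≤ 1 / 8 then
        (tube δ (e i) (a i)).indicator (fun _ => (1 : ℝ)) y else 0 := by
      intro f
      simp only [hN, Nt]
      rw [← Finset.sum_filter]
      exact (Finset.sum_subtype _ (fun x => by simp)
        (fun i => (tube δ (e i) (a i)).indicator (fun _ => (1 : ℝ)) y)).symm
    simp_rw [h1]
    rw [Finset.sum_comm]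
    unfold Nt
    refine Finset.sum_le_sum fun i _ => ?_
    obtain ⟨f, hf, hif⟩ : ∃ f ∈ t, e i ∈ Metric.ball f (1 / 8) := by
      have := htc (show e i ∈ Metric.sphere (0 : Eu d) 1 by
        rw [mem_sphere_zero_iff_norm]; exact he i)
      simpa using this
    have hfF : f ∈ F := htf.mem_toFinset.2 hf
    have h2 : ‖e i - f‖ ≤ 1 / 8 := by
      rw [Metric.mem_ball, dist_eq_norm] at hif
      exact hif.le
    refine le_trans ?_ (Finset.single_le_sum (f := fun f => if ‖e i - f‖ ≤ 1 / 8 then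
        (tube δ (e i) (a i)).indicator (fun _ => (1 : ℝ)) y else 0) (fun g _ => ?_) hfF)
    · rw [if_pos h2]
    · split_ifs
      · exact Set.indicator_nonneg (fun _ _ => zero_le_one) _
      · exact le_rfl
  have hNn : ∀ f ∈ F, ∀ y, 0 ≤ N f y := fun f _ y => Nt_nonneg _ _ _ _
  have hpt : ∀ y, ENNReal.ofReal (Ph (Nt e a δ y)) ≤
      ENNReal.ofReal (M ^ 2) * ∑ f ∈ F, ENNReal.ofReal (Ph (N f y)) := by
    intro y
    rw [← ENNReal.ofReal_sum_of_nonneg fun f hf => Ph_nonneg (hNn f hf y),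
      ← ENNReal.ofReal_mul (by positivity)]
    apply ENNReal.ofReal_le_ofReal
    refine (Ph_mono (Nt_nonneg _ _ _ _) (hsum y)).trans ?_
    exact Ph_sum_le F (fun f => N f y) (fun f hf => hNn f hf y) (by rw [hM]; linarith) hM1
  have hm : ∀ f, Measurable (fun y => ENNReal.ofReal (Ph (N f y))) := fun f =>
    ENNReal.measurable_ofReal.comp (Ph_meas.comp (Nt_meas _ _ _))
  set X : ℝ := C1 * (1 + L + R) ^ (d + 1) *
        (1 + Real.log (1 / δ)) ^ (1 - 1 / (2 * (d : ℝ) ^ 2 + 2 * d + 1)) with hX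
  have hlogδ : 0 ≤ Real.log (1 / δ) := Real.log_nonneg (by rw [le_div_iff₀ hδ]; linarith)
  have hX0 : 0 ≤ X := by positivity
  calc ∫⁻ y, ENNReal.ofReal (Ph (Nt e a δ y))
      ≤ ∫⁻ y, ENNReal.ofReal (M ^ 2) * ∑ f ∈ F, ENNReal.ofReal (Ph (N f y)) :=
        lintegral_mono hpt
    _ = ENNReal.ofReal (M ^ 2) * ∑ f ∈ F, ∫⁻ y, ENNReal.ofReal (Ph (N f y)) := by
        rw [lintegral_const_mul' _ _ ENNReal.ofReal_ne_top, lintegral_finsetSum _ fun f _ => hm f]
    _ ≤ ENNReal.ofReal (M ^ 2) * ∑ _f ∈ F, ENNReal.ofReal X := by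
        gcongr with f hf
        exact hcap _ (fun i : {i // ‖e i - f‖ ≤ 1 / 8} => e i.1) (fun i => a i.1) f L R δ hL hR hδ
          hδ1 (hFe f hf) (fun i => he i.1) (fun i => i.2)
          (fun i j hij => hsep i.1 j.1 fun h => hij (Subtype.ext h)) (fun i => haR i.1)
          (fun i j => hlip i.1 j.1)
    _ = ENNReal.ofReal (M ^ 2) * (ENNReal.ofReal (F.card : ℝ) * ENNReal.ofReal X) := by
        rw [Finset.sum_const, nsmul_eq_mul, ENNReal.ofReal_natCast]
    _ = ENNReal.ofReal (M ^ 2 * ((F.card : ℝ) * X)) := by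
        rw [← ENNReal.ofReal_mul (by positivity : (0 : ℝ) ≤ (F.card : ℝ)),
          ← ENNReal.ofReal_mul (by positivity : (0 : ℝ) ≤ M ^ 2)]
    _ ≤ _ := by
        apply ENNReal.ofReal_le_ofReal
        have h1 : (F.card : ℝ) ≤ M := by rw [hM]; linarith
        calc M ^ 2 * ((F.card : ℝ) * X) ≤ M ^ 2 * (M * X) := by gcongr
          _ = _ := by rw [hX]; ring

/-- from the entropy to sets -/
theorem sphere_level (hd : 1 ≤ d) : ∃ C : ℝ, 0 < C ∧ ∀ (ι : Type) [Fintype ι]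
    (e a : ι → Eu d) (L R δ : ℝ), 0 ≤ L → 0 ≤ R → 0 < δ → δ ≤ 1 →
    (∀ i, ‖e i‖ = 1) →
    (∀ i j, i ≠ j → δ ≤ ‖e i - e j‖) → (∀ i, ‖a i‖ ≤ R) → Osl L e a →
    ∀ (γ : ℝ) (E : Set (Eu d)), 0 < γ →
    ENNReal.ofReal γ ≤ ∑ i, volume (tube δ (e i) (a i) ∩ E) →
    ENNReal.ofReal (Real.exp (-(C / γ * (1 + L + R) ^ (d + 1) *
        (1 + Real.log (1 / δ)) ^ (1 - 1 / (2 * (d : ℝ) ^ 2 + 2 * d + 1))))) ≤ volume E := by
  obtain ⟨C1, hC1, hs⟩ := sphere_all hd
  refine ⟨2 * C1 + 2, by positivity, ?_⟩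
  intro ι _ e a L R δ hL hR hδ hδ1 he hsep haR hlip γ E hγ hint
  have hlogδ : 0 ≤ Real.log (1 / δ) := Real.log_nonneg (by rw [le_div_iff₀ hδ]; linarith)
  set ex : ℝ := 1 / (2 * (d : ℝ) ^ 2 + 2 * d + 1) with hex
  have he1 : ex ≤ 1 := by
    rw [hex, div_le_one (by positivity)]
    nlinarith [show (0 : ℝ) ≤ d by positivity]
  set Y : ℝ := (1 + L + R) ^ (d + 1) * (1 + Real.log (1 / δ)) ^ (1 - ex) with hY
  have hY1 : 1 ≤ Y := by
    have h1 : (1 : ℝ) ≤ (1 + L + R) ^ (d + 1) := one_le_pow₀ (by linarith)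
    have h2 : 1 ≤ (1 + Real.log (1 / δ)) ^ (1 - ex) :=
      Real.one_le_rpow (by linarith) (by linarith)
    nlinarith
  have hX : C1 * (1 + L + R) ^ (d + 1) * (1 + Real.log (1 / δ)) ^ (1 - ex) = C1 * Y := by
    rw [hY]; ring
  have h1 := hs ι e a L R δ hL hR hδ hδ1 he hsep haR hlip
  rw [hX] at h1
  have h2 := level_gen (by positivity : 0 < C1 * Y) hγ h1 (E := E) (by
    refine hint.trans (le_of_eq ?_)
    have h3 : ∀ y, ENNReal.ofReal (Nt e a δ y) =
        ∑ i, (tube δ (e i) (a i)).indicator (fun _ => (1 : ℝ≥0∞)) y := by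
      intro y
      unfold Nt
      rw [ENNReal.ofReal_sum_of_nonneg fun i _ => Set.indicator_nonneg (fun _ _ => zero_le_one) _]
      refine Finset.sum_congr rfl fun i _ => ?_
      by_cases hy : y ∈ tube δ (e i) (a i)
      · rw [Set.indicator_of_mem hy, Set.indicator_of_mem hy, ENNReal.ofReal_one]
      · rw [Set.indicator_of_notMem hy, Set.indicator_of_notMem hy, ENNReal.ofReal_zero]
    simp_rw [h3]
    rw [lintegral_finsetSum _ fun i _ =>
      measurable_const.indicator (isClosed_tube δ (e i) (a i)).measurableSet]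
    refine Finset.sum_congr rfl fun i _ => ?_
    rw [lintegral_indicator (isClosed_tube δ (e i) (a i)).measurableSet,
      Measure.restrict_restrict (isClosed_tube δ (e i) (a i)).measurableSet, setLIntegral_const,
      one_mul])
  refine le_trans (ENNReal.ofReal_le_ofReal (Real.exp_le_exp.2 (neg_le_neg ?_))) h2
  have h4 : (2 * C1 + 2) / γ * (1 + L + R) ^ (d + 1) *
      (1 + Real.log (1 / δ)) ^ (1 - ex) = ((2 * C1 + 2) * Y) / γ := by rw [hY]; ring
  rw [h4]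
  gcongr
  nlinarith

end Pool.Agent.R251.Osl
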